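import Mathlib

/-!
# Common prefixes with a ray in a free group
-/

namespace Pool.Agent.Q87.Ballean

variable {α : Type} [DecidableEq α]

/-- Length of the longest common prefix of a word with a sequence of letters. -/
def cp (z : ℕ → α × Bool) : ℕ → List (α × Bool) → ℕ
  | _, [] => 0
  | n, (c :: L) => if c = z n then cp z (n + 1) L + 1 else 0

/-- Segments of the ray. -/
def seg (z : ℕ → α × Bool) : ℕ → ℕ → List (α × Bool)
  | _, 0 => []
  | n, (k + 1) => z n :: seg z (n + 1) k

lemma cp_spec (z : ℕ → α × Bool) (L : List (α × Bool)) : ∀ n, ∃ L', L = seg z n (cp z n L) ++ L' ∧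
    ∀ c ∈ L'.head?, c ≠ z (n + cp z n L) := by
  induction L with
  | nil => intro n; exact ⟨[], by simp [cp, seg], by simp⟩
  | cons c L ih =>
    intro n
    by_cases h : c = z n
    · obtain ⟨L', h1, h2⟩ := ih (n + 1)
      refine ⟨L', ?_, ?_⟩
      · rw [cp, if_pos h, seg, List.cons_append, ← h1, h]
      · rw [cp, if_pos h]
        have : n + (cp z (n + 1) L + 1) = n + 1 + cp z (n + 1) L := by omega
        rw [this]
        exact h2
    · refine ⟨c :: L, ?_, ?_⟩
      · rw [cp, if_neg h]; rfl
      · rw [cp, if_neg h]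
        simpa using h

lemma cp_seg (z : ℕ → α × Bool) (k : ℕ) : ∀ n, cp z n (seg z n k) = k := by
  induction k with
  | zero => intro n; rfl
  | succ k ih => intro n; rw [seg, cp, if_pos rfl, ih]

lemma seg_add (z : ℕ → α × Bool) (k l : ℕ) : ∀ n, seg z n (k + l) = seg z n k ++ seg z (n + k) l := by
  induction k with
  | zero => intro n; simp [seg]
  | succ k ih =>
    intro n
    have : k + 1 + l = (k + l) + 1 := by omega
    rw [this, seg, seg, ih, List.cons_append]
    congr 3
    omega

omit [DecidableEq α] in
lemma invRev_isReduced {L : List (α × Bool)} (h : FreeGroup.IsReduced L) :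
    FreeGroup.IsReduced (FreeGroup.invRev L) := by
  classical
  rw [FreeGroup.isReduced_iff_reduce_eq] at h ⊢
  rw [FreeGroup.reduce_invRev, h]

/-- If multiplication on the right by `t` increases the common prefix by at least two, then the
word of `t` contains two consecutive letters of the ray, and determines the word of `u`. -/
lemma key (z : ℕ → α × Bool) (u t : FreeGroup α)
    (h : cp z 0 u.toWord + 2 ≤ cp z 0 (u * t).toWord) :
    ∃ j, t.toWord[j]? = some (z (cp z 0 u.toWord)) ∧
      t.toWord[j + 1]? = some (z (cp z 0 u.toWord + 1)) ∧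
      u.toWord = seg z 0 (cp z 0 u.toWord) ++ FreeGroup.invRev (t.toWord.take j) := by
  obtain ⟨U', hU1, hU2⟩ := cp_spec z u.toWord 0
  obtain ⟨V'', hV1, -⟩ := cp_spec z (u * t).toWord 0
  set n := cp z 0 u.toWord with hn
  obtain ⟨l, hl⟩ : ∃ l, cp z 0 (u * t).toWord = n + (2 + l) :=
    ⟨cp z 0 (u * t).toWord - n - 2, by omega⟩
  rw [hl, seg_add, seg_add] at hV1
  have hs2 : seg z (0 + n) 2 = [z n, z (n + 1)] := by
    simp [seg]
  rw [hs2] at hV1
  set V' := seg z (0 + n + 2) l ++ V'' with hV'
  have hV2 : (u * t).toWord = seg z 0 n ++ ([z n, z (n + 1)] ++ V') := by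
    rw [hV1, hV']; simp
  set T : List (α × Bool) := FreeGroup.invRev U' ++ ([z n, z (n + 1)] ++ V') with hT
  have htT : t = FreeGroup.mk T := by
    have e1 : u = FreeGroup.mk (seg z 0 n) * FreeGroup.mk U' := by
      rw [FreeGroup.mul_mk, ← hU1, FreeGroup.mk_toWord]
    have e2 : u * t = FreeGroup.mk (seg z 0 n) * FreeGroup.mk ([z n, z (n + 1)] ++ V') := by
      rw [FreeGroup.mul_mk, ← hV2, FreeGroup.mk_toWord]
    rw [hT, ← FreeGroup.mul_mk, ← FreeGroup.inv_mk]
    have : t = u⁻¹ * (u * t) := by group
    rw [this, e2, e1]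
    group
  have hUred : FreeGroup.IsReduced U' := by
    have := FreeGroup.isReduced_toWord (x := u)
    rw [hU1] at this
    exact (List.isChain_append.1 this).2.1
  have hVred : FreeGroup.IsReduced ([z n, z (n + 1)] ++ V') := by
    have := FreeGroup.isReduced_toWord (x := u * t)
    rw [hV2] at this
    exact (List.isChain_append.1 this).2.1
  have hTred : FreeGroup.IsReduced T := by
    rw [hT]
    refine List.IsChain.append (invRev_isReduced hUred) hVred ?_
    intro x hx y hy
    have hy' : z n = y := by simpa using hy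
    subst hy'
    cases U' with
    | nil => simp [FreeGroup.invRev] at hx
    | cons c U'' =>
      have hx' : (c.1, !c.2) = x := by
        simpa [FreeGroup.invRev] using hx
      subst hx'
      intro h1
      have h2 : c ≠ z (0 + n) := hU2 c (by simp)
      rw [zero_add] at h2
      show (!c.2) = (z n).2
      have h3 : c.2 ≠ (z n).2 := fun h4 => h2 (Prod.ext h1 h4)
      revert h3
      cases c.2 <;> cases (z n).2 <;> simp
  have hw : t.toWord = T := by
    rw [htT, FreeGroup.toWord_mk, hTred.reduce_eq]
  have hlen : (FreeGroup.invRev U').length = U'.length := FreeGroup.invRev_length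
  refine ⟨U'.length, ?_, ?_, ?_⟩
  · rw [hw, hT, List.getElem?_append_right (by omega), hlen]
    simp
  · rw [hw, hT, List.getElem?_append_right (by omega), hlen]
    simp
  · rw [hw, hT, List.take_append_of_le_length (by omega), ← hlen, List.take_length,
      FreeGroup.invRev_invRev]
    exact hU1

/-- The word of the image under a permutation of the letters. -/
lemma toWord_congr (e : α ≃ α) (w : FreeGroup α) :
    (FreeGroup.freeGroupCongr e w).toWord = w.toWord.map (fun p => (e p.1, p.2)) := by
  have h1 : FreeGroup.freeGroupCongr e w =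
      FreeGroup.mk (w.toWord.map (fun p => (e p.1, p.2))) := by
    conv_lhs => rw [← FreeGroup.mk_toWord (x := w)]
    rfl
  rw [h1, FreeGroup.toWord_mk]
  apply FreeGroup.IsReduced.reduce_eq
  unfold FreeGroup.IsReduced
  rw [List.isChain_map]
  have := FreeGroup.isReduced_toWord (x := w)
  refine this.imp ?_
  intro a b h h'
  exact h (e.injective h')

end Pool.Agent.Q87.Ballean
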